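import Mathlib
import Pool.Agent.P8H87.V2Stmt
import Pool.Agent.P8H87.V2Main

/-!
# The Bodirsky-Pinsker conjecture: one relation with essentially injective polymorphisms
-/

open Pool.Agent.P8H87 Pool.Agent.W994.AR Pool.Agent.NPC

namespace Pool.Agent.Results.MP_6ab439_lc.EssentiallyInjective

/-- For every `k ≥ 3`, the Bodirsky-Pinsker conjecture is equivalent to its restriction to the
templates with a single relation, of arity `k + 1`, in a `k`-transitive structure without
algebraicity, such that all polymorphisms of the template are essentially injective. -/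
theorem result (k : ℕ) (hk : 3 ≤ k) : BodirskyPinsker ↔ V2.BodirskyPinskerEssInj k := by
  constructor
  · intro h B σ _ _ _ ar 𝔹 hH hF _ _ r _ _ hK3
    exact h B σ ar 𝔹 hH hF 1 (fun _ => r) (fun a b _ => Subsingleton.elim a b) hK3
  · intro h B σ _ _ _ ar 𝔹 hH hF n f _ hK3
    obtain ⟨Ω, _, _, σ', _, ar', 𝔻, r, h1, h2, h3, h4, h5, h6, h7, h8⟩ :=
      V2.construction 𝔹 hH hF f k hk
    exact h8 (h Ω σ' ar' 𝔻 h1 h2 h3 h4 r h5 h6 (fun h9 => hK3 (h7 h9)))

end Pool.Agent.Results.MP_6ab439_lc.EssentiallyInjective
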