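import Mathlib
import Pool.Agent.P8H87.BPMain
import Pool.Agent.P8H87.V3Stmt
import Pool.Agent.P8H87.V3Main
import Pool.Agent.P8H87.V4Main

/-!
# Every template is equivalent to a highly transitive hypergraph
-/

open Pool.Agent.P8H87 Pool.Agent.W994.AR Pool.Agent.NPC

namespace Pool.Agent.Results.MP_6ab439_lc.PolynomialEquivalence

/-- (1) Let `𝔸` be a template in the scope of the Bodirsky-Pinsker conjecture, that is a reduct of a
countable finitely bounded homogeneous structure `𝔹`, and `k ≥ 1`. There is a template `𝔻 r` in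
the scope of the conjecture with a single relation, of arity `k + 1`, all whose tuples are injective
(a `(k + 1)`-uniform hypergraph if `k ≥ 2`), a reduct of a countable finitely bounded homogeneous
`k`-transitive structure `𝔻` without algebraicity, such that

* all satisfiable instances of `CSP(𝔻 r)` have injective solutions,
* `CSP(𝔻 r)` and `CSP(𝔸)` are polynomial-time many-one equivalent,
* `𝔻 r` pp-constructs `K₃` if and only if `𝔸` does.

(2) For every `k ≥ 1` the conjecture is equivalent to its restriction to the templates with a single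
relation, of arity `k + 1`, in a `k`-transitive structure without algebraicity, such that every
satisfiable instance has an injective solution; for `k ≥ 2` it is equivalent to its restriction to
those of them which are `(k + 1)`-uniform hypergraphs. -/
theorem result :
    (∀ k : ℕ, 1 ≤ k → ∀ (B σ : Type) [Countable B] [Nonempty B] [Finite σ]
      (ar : σ → ℕ) (𝔹 : Str σ ar B), Homogeneous 𝔹 → FinitelyBounded 𝔹 → ∀ (n : ℕ)
      (f : Fin n → σ),
      ∃ (Ω τ : Type) (arD : τ → ℕ) (𝔻 : Str τ arD Ω) (r : τ),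
        Countable Ω ∧ Nonempty Ω ∧ Finite τ ∧ Homogeneous 𝔻 ∧ FinitelyBounded 𝔻 ∧
        Transitive 𝔻 k ∧ NoAlgebraicity 𝔻 ∧
        arD r = k + 1 ∧ (∀ t ∈ 𝔻 r, Function.Injective t) ∧ (2 ≤ k → V3.Uniform (𝔻 r)) ∧
        InjectiveSolutions (fun _ : Fin 1 => 𝔻 r) ∧
        (PPConstructsK3 (fun _ : Fin 1 => 𝔻 r) ↔ PPConstructsK3 (fun i => 𝔹 (f i))) ∧
        Reduces (lang (CSP (fun _ : Fin 1 => 𝔻 r))) (lang (CSP (fun i => 𝔹 (f i)))) ∧
        Reduces (lang (CSP (fun i => 𝔹 (f i)))) (lang (CSP (fun _ : Fin 1 => 𝔻 r)))) ∧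
    (∀ k : ℕ, 1 ≤ k → (BodirskyPinsker ↔ BodirskyPinskerTransitive k)) ∧
    (∀ k : ℕ, 2 ≤ k → (BodirskyPinsker ↔ V3.BodirskyPinskerHypergraph k)) := by
  refine ⟨?_, ?_, ?_⟩
  · intro k hk B σ _ _ _ ar 𝔹 hH hF n f
    by_cases hk2 : 2 ≤ k
    · obtain ⟨Ω, i1, i2, τ, i3, arD, 𝔻, r, h1, h2, h3, h4, h5, h6, h7, h8, h9, h10⟩ :=
        V4.constructionH 𝔹 hH hF f k hk2
      exact ⟨Ω, τ, arD, 𝔻, r, i1, i2, i3, h1, h2, h3, h4, h5, fun t ht => (h6 t ht).1,
        fun _ => h6, h7, h8, h9, h10⟩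
    · obtain ⟨Ω, i1, i2, τ, i3, arD, 𝔻, r, h1, h2, h3, h4, h5, h6, h7, h8, h9, h10⟩ :=
        V4.constructionR 𝔹 hH hF f k hk
      exact ⟨Ω, τ, arD, 𝔻, r, i1, i2, i3, h1, h2, h3, h4, h5, h6,
        fun h => absurd h hk2, h7, h8, h9, h10⟩
  · intro k hk
    constructor
    · intro h B σ _ _ _ ar 𝔹 hH hF _ _ r _ _ hK3
      exact h B σ ar 𝔹 hH hF 1 (fun _ => r) (fun a b _ => Subsingleton.elim a b) hK3
    · intro h B σ _ _ _ ar 𝔹 hH hF n f _ hK3
      obtain ⟨Ω, _, _, σ', _, ar', 𝔻, r, h1, h2, h3, h4, h5, h6, h7, h8⟩ :=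
        construction 𝔹 hH hF f k hk
      exact h8 (h Ω σ' ar' 𝔻 h1 h2 h3 h4 r h5 h6 (fun h9 => hK3 (h7 h9)))
  · intro k hk
    constructor
    · intro h B σ _ _ _ ar 𝔹 hH hF _ _ r _ _ _ hK3
      exact h B σ ar 𝔹 hH hF 1 (fun _ => r) (fun a b _ => Subsingleton.elim a b) hK3
    · intro h B σ _ _ _ ar 𝔹 hH hF n f _ hK3
      obtain ⟨Ω, _, _, σ', _, ar', 𝔻, r, h1, h2, h3, h4, h5, h6, h7, h8, h9⟩ :=
        V3.construction 𝔹 hH hF f k hk
      exact h9 (h Ω σ' ar' 𝔻 h1 h2 h3 h4 r h5 h6 h7 (fun h10 => hK3 (h8 h10)))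

end Pool.Agent.Results.MP_6ab439_lc.PolynomialEquivalence
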